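import Pool.Agent.Lib.MP_d943a5_al.VSC
import Pool.Agent.Lib.MP_d943a5_al.Conv

/-!
# The virtual surjection theorem

Let `Γ 0, …, Γ (n-1)` be arbitrary groups of type `F_k`, `2 ≤ k ≤ n`, and let `P` be any subgroup
of their direct product. If `P` virtually surjects to `k`-tuples of factors, then `P` is of
type `F_k`. Here type `F_k` (`k ≥ 2`) is used in its algebraic form: finitely presented and of
type `FP_k`.
-/

set_option autoImplicit false

namespace Pool.Agent.Results.MP_d943a5_al.VirtualSurjection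

/-- The group `G` is of type `FP_m`: there are natural numbers `r 0, r 1, …` and an exact sequence
`(ℤG)^(r m) → … → (ℤG)^(r 1) → (ℤG)^(r 0) → ℤ → 0` of left modules over the integral group ring
`ℤG`, where `G` acts trivially on `ℤ`. (Nothing is demanded of the maps of higher index.) -/
def TypeFP (m : ℕ) (G : Type) [Group G] : Prop :=
  ∃ (r : ℕ → ℕ) (ε : (Fin (r 0) → MonoidAlgebra ℤ G) →+ ℤ)
    (d : ∀ i : ℕ, (Fin (r (i + 1)) → MonoidAlgebra ℤ G) →ₗ[MonoidAlgebra ℤ G]
      (Fin (r i) → MonoidAlgebra ℤ G)),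
    (∀ (g : G) (x : Fin (r 0) → MonoidAlgebra ℤ G), ε (MonoidAlgebra.of ℤ G g • x) = ε x) ∧
    Function.Surjective ε ∧
    (1 ≤ m → ∀ x, ε x = 0 ↔ x ∈ LinearMap.range (d 0)) ∧
    (∀ j : ℕ, j + 2 ≤ m → ∀ x, d j x = 0 ↔ x ∈ LinearMap.range (d (j + 1)))

/-- The algebraic form of type `F_m`, `m ≥ 2`: finitely presented and of type `FP_m`. -/
def TypeF (m : ℕ) (G : Type) [Group G] : Prop :=
  Group.IsFinitelyPresented G ∧ TypeFP m G

/-- `P` virtually surjects to `k`-tuples: for every set `J` of `k` indices the image of `P` in the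
product of the `Γ j`, `j ∈ J`, has finite index. -/
def VirtuallySurjects {n : ℕ} (Γ : Fin n → Type) [∀ i, Group (Γ i)] (k : ℕ)
    (P : Subgroup (∀ i, Γ i)) : Prop :=
  ∀ J : Finset (Fin n), J.card = k →
    (P.map (MonoidHom.pi (fun j : ↥J => Pi.evalMonoidHom Γ (j : Fin n)))).FiniteIndex

/-- **Virtual surjection theorem.** A subgroup of a direct product of `n` groups of type `F_k`,
`2 ≤ k ≤ n`, which virtually surjects to `k`-tuples of factors is of type `F_k`. -/
theorem result (n k : ℕ) (hk : 2 ≤ k) (hkn : k ≤ n) (Γ : Fin n → Type) [∀ i, Group (Γ i)]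
    (hΓ : ∀ i, TypeF k (Γ i)) (P : Subgroup (∀ i, Γ i)) (hP : VirtuallySurjects Γ k P) :
    TypeF k P := by
  have h := Pool.Agent.Lib.MP_d943a5_al.vsc Γ P k hk hkn
    (fun i => (Pool.Agent.Lib.MP_d943a5_al.GFP_iff_exact k (Γ i)).2 (hΓ i).2)
    (fun i => (hΓ i).1) (fun J hJ => (hP J hJ).index_ne_zero)
  exact ⟨h.1, (Pool.Agent.Lib.MP_d943a5_al.GFP_iff_exact k P).1 h.2⟩

end Pool.Agent.Results.MP_d943a5_al.VirtualSurjection
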